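import Pool.Agent.MP_587aff_al.Forward

set_option autoImplicit false
open scoped Pointwise
open Filter Topology

namespace Pool.Agent.MP_587aff_al

universe u

section Backward
variable {G : Type u} [Group G]

theorem dominated_add {f : G → ℝ} (hf : ∀ x, 0 ≤ f x) {h k : G → ℝ}
    (hh : Dominated f h) (hk : Dominated f k) : Dominated f (h + k) := by
  classical
  obtain ⟨S1, c1, h1⟩ := hh
  obtain ⟨S2, c2, h2⟩ := hk
  refine ⟨S1 ∪ S2, |c1| + |c2|, fun x => ?_⟩
  have e1 : ∑ s ∈ S1, f (s⁻¹ * x) ≤ ∑ s ∈ S1 ∪ S2, f (s⁻¹ * x) :=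
    Finset.sum_le_sum_of_subset_of_nonneg Finset.subset_union_left (fun _ _ _ => hf _)
  have e2 : ∑ s ∈ S2, f (s⁻¹ * x) ≤ ∑ s ∈ S1 ∪ S2, f (s⁻¹ * x) :=
    Finset.sum_le_sum_of_subset_of_nonneg Finset.subset_union_right (fun _ _ _ => hf _)
  have p1 : 0 ≤ ∑ s ∈ S1, f (s⁻¹ * x) := Finset.sum_nonneg (fun _ _ => hf _)
  have p2 : 0 ≤ ∑ s ∈ S2, f (s⁻¹ * x) := Finset.sum_nonneg (fun _ _ => hf _)
  calc |(h + k) x| ≤ |h x| + |k x| := abs_add_le _ _
    _ ≤ c1 * ∑ s ∈ S1, f (s⁻¹ * x) + c2 * ∑ s ∈ S2, f (s⁻¹ * x) := add_le_add (h1 x) (h2 x)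
    _ ≤ |c1| * ∑ s ∈ S1 ∪ S2, f (s⁻¹ * x) + |c2| * ∑ s ∈ S1 ∪ S2, f (s⁻¹ * x) := by
        apply add_le_add
        · exact mul_le_mul (le_abs_self _) e1 p1 (abs_nonneg _)
        · exact mul_le_mul (le_abs_self _) e2 p2 (abs_nonneg _)
    _ = (|c1| + |c2|) * ∑ s ∈ S1 ∪ S2, f (s⁻¹ * x) := by ring

theorem dominated_smul {f : G → ℝ} (a : ℝ) {h : G → ℝ} (hh : Dominated f h) :
    Dominated f (a • h) := by
  obtain ⟨S1, c1, h1⟩ := hh
  refine ⟨S1, |a| * c1, fun x => ?_⟩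
  simp only [Pi.smul_apply, smul_eq_mul, abs_mul, mul_assoc]
  exact mul_le_mul_of_nonneg_left (h1 x) (abs_nonneg a)

theorem dominated_self {f : G → ℝ} (hf : ∀ x, 0 ≤ f x) : Dominated f f :=
  ⟨{1}, 1, fun x => by simp [abs_of_nonneg (hf x)]⟩

theorem dominated_shift {f h : G → ℝ} (g : G) (hh : Dominated f h) :
    Dominated f (fun x => h (g⁻¹ * x)) := by
  classical
  obtain ⟨S, c, h1⟩ := hh
  refine ⟨S.image (fun s => g * s), c, fun x => ?_⟩
  rw [Finset.sum_image (by intro a _ b _ hab; simpa using hab)]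
  refine (h1 (g⁻¹ * x)).trans (le_of_eq ?_)
  congr 1
  apply Finset.sum_congr rfl
  intro s _
  congr 1
  group

/-- The space of functions dominated by `f`. -/
def domSpace (f : G → ℝ) (hf : ∀ x, 0 ≤ f x) : Submodule ℝ (G → ℝ) where
  carrier := {h | Dominated f h}
  add_mem' := fun h1 h2 => dominated_add hf h1 h2
  zero_mem' := ⟨∅, 0, fun x => by simp⟩
  smul_mem' := fun a _ h => dominated_smul a h

/-- The span of the differences `g·h - h`. -/
def invSpace (f : G → ℝ) : Submodule ℝ (G → ℝ) :=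
  Submodule.span ℝ {k | ∃ (g : G) (h : G → ℝ), Dominated f h ∧ k = (fun x => h (g⁻¹ * x)) - h}

open Classical in
/-- The ball around `x0`. -/
noncomputable def bl (T' : Finset G) (x0 : G) (k : ℕ) : Finset G := (T' ^ k).image (fun y => y * x0)

theorem bl_mono {T' : Finset G} (h1 : (1 : G) ∈ T') (x0 : G) {j k : ℕ} (h : j ≤ k) :
    bl T' x0 j ⊆ bl T' x0 k := by
  classical
  unfold bl
  exact Finset.image_subset_image (Finset.pow_subset_pow_right h1 h)

theorem mul_mem_bl {T' : Finset G} (x0 : G) {k : ℕ} {s x : G} (hs : s ∈ T')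
    (hx : x ∈ bl T' x0 k) : s * x ∈ bl T' x0 (k + 1) := by
  classical
  unfold bl at *
  rw [Finset.mem_image] at *
  obtain ⟨y, hy, rfl⟩ := hx
  refine ⟨s * y, ?_, by group⟩
  rw [pow_succ']
  exact Finset.mul_mem_mul hs hy

theorem gen_bound {f : G → ℝ} (hf : ∀ x, 0 ≤ f x) (x0 : G) (g : G) (h : G → ℝ)
    (hh : Dominated f h) :
    ∃ T0 : Finset G, ∀ T' : Finset G, T0 ⊆ T' → (1 : G) ∈ T' → (∀ s ∈ T', s⁻¹ ∈ T') →
      ∃ C : ℝ, 0 ≤ C ∧ ∀ k : ℕ,
        |∑ x ∈ bl T' x0 (k + 2), (h (g⁻¹ * x) - h x)| ≤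
          C * (∑ x ∈ bl T' x0 (k + 4), f x - ∑ x ∈ bl T' x0 k, f x) := by
  classical
  obtain ⟨S, c, hS⟩ := hh
  refine ⟨S ∪ {g}, fun T' hsub hone hinv => ?_⟩
  refine ⟨2 * (|c| * S.card), by positivity, fun k => ?_⟩
  set B := bl T' x0 with hB
  have hg : g ∈ T' := hsub (by simp)
  have hg' : g⁻¹ ∈ T' := hinv _ hg
  -- the core estimate
  have key : ∑ x ∈ B (k + 3) \ B (k + 1), |h x| ≤
      (|c| * S.card) * (∑ x ∈ B (k + 4), f x - ∑ x ∈ B k, f x) := by
    have hsd : ∑ x ∈ B (k + 4), f x - ∑ x ∈ B k, f x = ∑ x ∈ B (k + 4) \ B k, f x := by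
      rw [← Finset.sum_sdiff (bl_mono hone x0 (by omega : k ≤ k + 4))]
      simp [hB]
    rw [hsd]
    calc ∑ x ∈ B (k + 3) \ B (k + 1), |h x|
        ≤ ∑ x ∈ B (k + 3) \ B (k + 1), |c| * ∑ s ∈ S, f (s⁻¹ * x) := by
          apply Finset.sum_le_sum
          intro x _
          refine (hS x).trans ?_
          exact mul_le_mul_of_nonneg_right (le_abs_self c) (Finset.sum_nonneg (fun _ _ => hf _))
      _ = |c| * ∑ s ∈ S, ∑ x ∈ B (k + 3) \ B (k + 1), f (s⁻¹ * x) := by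
          rw [← Finset.mul_sum, Finset.sum_comm]
      _ ≤ |c| * ∑ s ∈ S, ∑ x ∈ B (k + 4) \ B k, f x := by
          apply mul_le_mul_of_nonneg_left _ (abs_nonneg _)
          apply Finset.sum_le_sum
          intro s hs
          have hs1 : s ∈ T' := hsub (by simp [hs])
          have hs2 : s⁻¹ ∈ T' := hinv _ hs1
          have : ∑ x ∈ B (k + 3) \ B (k + 1), f (s⁻¹ * x) =
              ∑ y ∈ (B (k + 3) \ B (k + 1)).image (fun x => s⁻¹ * x), f y := by
            rw [Finset.sum_image (by intro a _ b _ hab; simpa using hab)]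
          rw [this]
          apply Finset.sum_le_sum_of_subset_of_nonneg _ (fun _ _ _ => hf _)
          intro y hy
          rw [Finset.mem_image] at hy
          obtain ⟨x, hx, rfl⟩ := hy
          rw [Finset.mem_sdiff] at hx ⊢
          refine ⟨mul_mem_bl x0 hs2 hx.1, fun hc => hx.2 ?_⟩
          have := mul_mem_bl x0 hs1 hc
          simpa using this
      _ = (|c| * S.card) * ∑ x ∈ B (k + 4) \ B k, f x := by
          rw [Finset.sum_const, nsmul_eq_mul]; ring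
  -- difference of sums
  have e1 : ∑ x ∈ B (k + 2), h (g⁻¹ * x) = ∑ y ∈ (B (k + 2)).image (fun x => g⁻¹ * x), h y := by
    rw [Finset.sum_image (by intro a _ b _ hab; simpa using hab)]
  set D := (B (k + 2)).image (fun x => g⁻¹ * x) with hD
  have hD1 : B (k + 1) ⊆ D := by
    intro y hy
    rw [hD, Finset.mem_image]
    refine ⟨g * y, mul_mem_bl x0 hg hy, by group⟩
  have hD2 : D ⊆ B (k + 3) := by
    intro y hy
    rw [hD, Finset.mem_image] at hy
    obtain ⟨x, hx, rfl⟩ := hy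
    exact mul_mem_bl x0 hg' hx
  have hB1 : B (k + 1) ⊆ B (k + 2) := bl_mono hone x0 (by omega)
  have hB2 : B (k + 2) ⊆ B (k + 3) := bl_mono hone x0 (by omega)
  have e2 : ∑ y ∈ D, h y = ∑ y ∈ D \ B (k + 1), h y + ∑ y ∈ B (k + 1), h y :=
    (Finset.sum_sdiff hD1).symm
  have e3 : ∑ y ∈ B (k + 2), h y = ∑ y ∈ B (k + 2) \ B (k + 1), h y + ∑ y ∈ B (k + 1), h y :=
    (Finset.sum_sdiff hB1).symm
  have b1 : |∑ y ∈ D \ B (k + 1), h y| ≤ ∑ x ∈ B (k + 3) \ B (k + 1), |h x| :=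
    (Finset.abs_sum_le_sum_abs _ _).trans
      (Finset.sum_le_sum_of_subset_of_nonneg (Finset.sdiff_subset_sdiff hD2 le_rfl)
        (fun _ _ _ => abs_nonneg _))
  have b2 : |∑ y ∈ B (k + 2) \ B (k + 1), h y| ≤ ∑ x ∈ B (k + 3) \ B (k + 1), |h x| :=
    (Finset.abs_sum_le_sum_abs _ _).trans
      (Finset.sum_le_sum_of_subset_of_nonneg (Finset.sdiff_subset_sdiff hB2 le_rfl)
        (fun _ _ _ => abs_nonneg _))
  rw [Finset.sum_sub_distrib, e1, e2, e3]
  have : ∑ y ∈ D \ B (k + 1), h y + ∑ y ∈ B (k + 1), h y -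
      (∑ y ∈ B (k + 2) \ B (k + 1), h y + ∑ y ∈ B (k + 1), h y) =
      ∑ y ∈ D \ B (k + 1), h y - ∑ y ∈ B (k + 2) \ B (k + 1), h y := by ring
  rw [this]
  refine (abs_sub _ _).trans ?_
  linarith

theorem inv_bound {f : G → ℝ} (hf : ∀ x, 0 ≤ f x) (x0 : G) (n : G → ℝ) (hn : n ∈ invSpace f) :
    ∃ T0 : Finset G, ∀ T' : Finset G, T0 ⊆ T' → (1 : G) ∈ T' → (∀ s ∈ T', s⁻¹ ∈ T') →
      ∃ C : ℝ, 0 ≤ C ∧ ∀ k : ℕ,
        |∑ x ∈ bl T' x0 (k + 2), n x| ≤
          C * (∑ x ∈ bl T' x0 (k + 4), f x - ∑ x ∈ bl T' x0 k, f x) := by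
  classical
  unfold invSpace at hn
  induction hn using Submodule.span_induction with
  | mem k hk =>
    obtain ⟨g, h, hh, rfl⟩ := hk
    exact gen_bound hf x0 g h hh
  | zero => exact ⟨∅, fun T' _ h1 _ => ⟨0, le_rfl, fun k => by simp⟩⟩
  | add a b _ _ iha ihb =>
    obtain ⟨S1, h1⟩ := iha
    obtain ⟨S2, h2⟩ := ihb
    refine ⟨S1 ∪ S2, fun T' hs hone hinv => ?_⟩
    obtain ⟨C1, hC1, e1⟩ := h1 T' (Finset.union_subset_left hs) hone hinv
    obtain ⟨C2, hC2, e2⟩ := h2 T' (Finset.union_subset_right hs) hone hinv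
    refine ⟨C1 + C2, by positivity, fun k => ?_⟩
    simp only [Pi.add_apply]
    rw [Finset.sum_add_distrib, add_mul]
    exact (abs_add_le _ _).trans (add_le_add (e1 k) (e2 k))
  | smul a b _ ih =>
    obtain ⟨S1, h1⟩ := ih
    refine ⟨S1, fun T' hs hone hinv => ?_⟩
    obtain ⟨C1, hC1, e1⟩ := h1 T' hs hone hinv
    refine ⟨|a| * C1, by positivity, fun k => ?_⟩
    simp only [Pi.smul_apply, smul_eq_mul]
    rw [← Finset.mul_sum, abs_mul, mul_assoc]
    exact mul_le_mul_of_nonneg_left (e1 k) (abs_nonneg a)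

/-- The translate property under subexponential growth. -/
theorem translate_property (hG : LocallySubexponentialGrowth G) {f : G → ℝ}
    (hf : ∀ x, 0 ≤ f x) (M : ℝ) (hM : ∀ x, f x ≤ M) (x0 : G) (hx0 : f x0 ≠ 0)
    (n : G → ℝ) (hn : n ∈ invSpace f) (hfn : ∀ x, f x ≤ n x) : False := by
  classical
  have hx0' : 0 < f x0 := lt_of_le_of_ne (hf x0) (Ne.symm hx0)
  have hM0 : 0 < M := hx0'.trans_le (hM x0)
  obtain ⟨T0, hT0⟩ := inv_bound hf x0 n hn
  set T : Finset G := (T0 ∪ T0.image (fun s => s⁻¹)) ∪ {1} with hT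
  have hone : (1 : G) ∈ T := by simp [hT]
  have hinv : ∀ s ∈ T, s⁻¹ ∈ T := by
    intro s hs
    simp only [hT, Finset.mem_union, Finset.mem_image, Finset.mem_singleton] at hs ⊢
    rcases hs with (h | ⟨a, ha, rfl⟩) | h
    · exact Or.inl (Or.inr ⟨s, h, rfl⟩)
    · exact Or.inl (Or.inl (by simpa using ha))
    · exact Or.inr (by simp [h])
  obtain ⟨C, hC, hbound⟩ := hT0 T (by
    intro s hs; simp [hT, hs]) hone hinv
  set a : ℕ → ℝ := fun k => ∑ x ∈ bl T x0 k, f x with ha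
  have hamono : ∀ j k, j ≤ k → a j ≤ a k := fun j k h =>
    Finset.sum_le_sum_of_subset_of_nonneg (bl_mono hone x0 h) (fun _ _ _ => hf _)
  have ha0 : 0 < a 0 := by
    have : bl T x0 0 = {x0} := by simp [bl]
    simp only [ha, this, Finset.sum_singleton]
    exact hx0'
  have hstep : ∀ k, (1 + 1 / (C + 1)) * a k ≤ a (k + 4) := by
    intro k
    have h1 : a (k + 2) ≤ C * (a (k + 4) - a k) := by
      calc a (k + 2) ≤ ∑ x ∈ bl T x0 (k + 2), n x := Finset.sum_le_sum (fun x _ => hfn x)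
        _ ≤ |∑ x ∈ bl T x0 (k + 2), n x| := le_abs_self _
        _ ≤ _ := hbound k
    have h2 : a k ≤ a (k + 2) := hamono _ _ (by omega)
    have h3 : a k ≤ a (k + 4) := hamono _ _ (by omega)
    have h4 : a k ≤ (C + 1) * (a (k + 4) - a k) := by nlinarith
    have h5 : a k / (C + 1) ≤ a (k + 4) - a k := by
      rw [div_le_iff₀ (by linarith)]; linarith
    have h6 : (1 + 1 / (C + 1)) * a k = a k + a k / (C + 1) := by ring
    rw [h6]; linarith
  set q : ℝ := 1 + 1 / (C + 1) with hq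
  have hq1 : 1 < q := by
    rw [hq]
    have : 0 < 1 / (C + 1) := by positivity
    linarith
  have hgrow : ∀ j : ℕ, q ^ j * a 0 ≤ a (4 * j) := by
    intro j
    induction j with
    | zero => simp
    | succ j ih =>
      calc q ^ (j + 1) * a 0 = q * (q ^ j * a 0) := by ring
        _ ≤ q * a (4 * j) := mul_le_mul_of_nonneg_left ih (by linarith)
        _ ≤ a (4 * j + 4) := hstep _
        _ = a (4 * (j + 1)) := by ring_nf
  -- choose r with r ^ 8 = q
  obtain ⟨r, hr1, hr8⟩ : ∃ r : ℝ, 1 < r ∧ r ^ 8 = q := by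
    refine ⟨q ^ ((8 : ℕ) : ℝ)⁻¹, ?_, ?_⟩
    · exact Real.one_lt_rpow hq1 (by positivity)
    · exact Real.rpow_inv_natCast_pow (by linarith) (by norm_num)
  have hev := hG T r hr1
  have hcard : ∀ k, a k ≤ M * (((T : Set G) ^ k).ncard : ℝ) := by
    intro k
    have h1 : (bl T x0 k).card ≤ ((T : Set G) ^ k).ncard := by
      rw [← Finset.coe_pow, Set.ncard_coe_finset]
      exact Finset.card_image_le
    calc a k ≤ ∑ x ∈ bl T x0 k, M := Finset.sum_le_sum (fun x _ => hM x)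
      _ = M * ((bl T x0 k).card : ℝ) := by rw [Finset.sum_const, nsmul_eq_mul]; ring
      _ ≤ _ := mul_le_mul_of_nonneg_left (by exact_mod_cast h1) hM0.le
  have hlim : Tendsto (fun j : ℕ => (r ^ 4) ^ j) atTop atTop :=
    tendsto_pow_atTop_atTop_of_one_lt (one_lt_pow₀ hr1 (by norm_num))
  have h1 := hlim.eventually (eventually_gt_atTop (M / a 0))
  have h2 : ∀ᶠ j : ℕ in atTop, (((T : Set G) ^ (4 * j)).ncard : ℝ) ≤ r ^ (4 * j) := by
    have : Tendsto (fun j : ℕ => 4 * j) atTop atTop :=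
      tendsto_id.const_mul_atTop' (by norm_num)
    exact this.eventually hev
  obtain ⟨j, hj1, hj2⟩ := (h1.and h2).exists
  have h3 : q ^ j * a 0 ≤ M * r ^ (4 * j) :=
    (hgrow j).trans ((hcard _).trans (mul_le_mul_of_nonneg_left hj2 hM0.le))
  have h4 : q ^ j = (r ^ 4) ^ j * r ^ (4 * j) := by
    rw [← hr8]; ring
  rw [h4] at h3
  have h5 : 0 < r ^ (4 * j) := by positivity
  have h6 : (r ^ 4) ^ j * a 0 ≤ M := by
    have : ((r ^ 4) ^ j * a 0) * r ^ (4 * j) ≤ M * r ^ (4 * j) := by linarith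
    exact le_of_mul_le_mul_right this h5
  rw [div_lt_iff₀ ha0] at hj1
  linarith

theorem formProperty_of_growth (hG : LocallySubexponentialGrowth G) : FormProperty G := by
  classical
  intro f hf ⟨M, hM⟩ ⟨x0, hx0⟩
  have htp := fun n hn hfn => translate_property hG hf M hM x0 hx0 n hn hfn
  let V := domSpace f hf
  let s : PointedCone ℝ V :=
    { carrier := {h | ∃ n ∈ invSpace f, ∀ x, n x ≤ (h : G → ℝ) x}
      add_mem' := by
        rintro a b ⟨n1, hn1, h1⟩ ⟨n2, hn2, h2⟩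
        exact ⟨n1 + n2, Submodule.add_mem _ hn1 hn2, fun x => by
          simp only [Pi.add_apply, Submodule.coe_add]; linarith [h1 x, h2 x]⟩
      zero_mem' := ⟨0, Submodule.zero_mem _, fun x => by simp⟩
      smul_mem' := by
        rintro c a ⟨n1, hn1, h1⟩
        refine ⟨(c : ℝ) • n1, Submodule.smul_mem _ _ hn1, fun x => ?_⟩
        have : ((c • a : V) : G → ℝ) x = (c : ℝ) * (a : G → ℝ) x := rfl
        rw [this]
        simp only [Pi.smul_apply, smul_eq_mul]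
        exact mul_le_mul_of_nonneg_left (h1 x) c.2 }
  have hs : ∀ h : V, h ∈ s ↔ ∃ n ∈ invSpace f, ∀ x, n x ≤ (h : G → ℝ) x := fun h => Iff.rfl
  let fV : V := ⟨f, dominated_self hf⟩
  have hfV : fV ≠ 0 := by
    intro h
    apply hx0
    have := congrArg (fun v : V => (v : G → ℝ) x0) h
    simpa using this
  let p : V →ₗ.[ℝ] ℝ := LinearPMap.mkSpanSingleton fV (1 : ℝ) hfV
  have hp : ∀ x : p.domain, (x : V) ∈ s → 0 ≤ p x := by
    rintro ⟨x, hx⟩ hxs
    obtain ⟨t, rfl⟩ := Submodule.mem_span_singleton.mp hx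
    have e1 : p ⟨t • fV, hx⟩ = t :=
      (LinearPMap.mkSpanSingleton'_apply fV (1 : ℝ) _ t hx).trans (by simp)
    rw [e1]
    by_contra hneg
    push Not at hneg
    obtain ⟨n, hn, hle⟩ := (hs _).mp hxs
    apply htp (t⁻¹ • n) (Submodule.smul_mem _ _ hn)
    intro x
    have h1 : n x ≤ t * f x := hle x
    simp only [Pi.smul_apply, smul_eq_mul]
    have h2 : t⁻¹ < 0 := inv_lt_zero.mpr hneg
    have h3 : t⁻¹ * (t * f x) ≤ t⁻¹ * n x := mul_le_mul_of_nonpos_left h1 h2.le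
    rwa [← mul_assoc, inv_mul_cancel₀ hneg.ne, one_mul] at h3
  have hdense : ∀ y : V, ∃ x : p.domain, (x : V) + y ∈ s := by
    rintro ⟨y, S, c, hy⟩
    refine ⟨⟨(|c| * S.card) • fV, Submodule.mem_span_singleton.mpr ⟨_, rfl⟩⟩, ?_⟩
    rw [hs]
    refine ⟨|c| • ∑ g ∈ S, (f - fun x => f (g⁻¹ * x)), ?_, fun x => ?_⟩
    · apply Submodule.smul_mem
      apply Submodule.sum_mem
      intro g _
      rw [← neg_sub]
      apply Submodule.neg_mem
      exact Submodule.subset_span ⟨g, f, dominated_self hf, rfl⟩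
    · have h1 := (abs_le.mp (hy x)).1
      have h2 : c * ∑ g ∈ S, f (g⁻¹ * x) ≤ |c| * ∑ g ∈ S, f (g⁻¹ * x) :=
        mul_le_mul_of_nonneg_right (le_abs_self c) (Finset.sum_nonneg (fun _ _ => hf _))
      have h3 : (((|c| * S.card) • fV + (⟨y, S, c, hy⟩ : V) : V) : G → ℝ) x =
        |c| * S.card * f x + y x := rfl
      rw [h3]
      simp only [Pi.smul_apply, Finset.sum_apply, Pi.sub_apply, smul_eq_mul,
        Finset.sum_sub_distrib, Finset.sum_const, nsmul_eq_mul, Pi.mul_apply, Pi.natCast_apply]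
      nlinarith
  obtain ⟨g, hg1, hg2⟩ := riesz_extension s p hp hdense
  have hginv : ∀ n : V, (n : G → ℝ) ∈ invSpace f → g n = 0 := by
    intro n hn
    apply le_antisymm
    · have := hg2 (-n) ⟨-n, Submodule.neg_mem _ hn, fun x => le_rfl⟩
      rw [map_neg] at this
      linarith
    · exact hg2 n ⟨n, hn, fun x => le_rfl⟩
  refine ⟨fun h => if hh : Dominated f h then g ⟨h, hh⟩ else 0, ?_, ?_, ?_, ?_, ?_⟩
  · intro h k hh hk
    simp only [hh, hk, dominated_add hf hh hk, dif_pos]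
    rw [← map_add]
    rfl
  · intro a h hh
    simp only [hh, dominated_smul a hh, dif_pos]
    have : (⟨a • h, dominated_smul a hh⟩ : V) = a • (⟨h, hh⟩ : V) := rfl
    rw [this, map_smul, smul_eq_mul]
  · intro h hh hpos
    simp only [hh, dif_pos]
    exact hg2 _ ⟨0, Submodule.zero_mem _, hpos⟩
  · intro a h hh
    simp only [hh, dominated_shift a hh, dif_pos]
    have h1 := hginv ((⟨_, dominated_shift a hh⟩ : V) - ⟨h, hh⟩)
      (Submodule.subset_span ⟨a, h, hh, rfl⟩)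
    rw [map_sub] at h1
    linarith
  · simp only [dominated_self hf, dif_pos]
    have h1 := hg1 ⟨fV, Submodule.mem_span_singleton_self _⟩
    rw [show (⟨f, dominated_self hf⟩ : V) = fV from rfl]
    rw [h1]
    have e2 : ∀ (t : ℝ) (hx : t • fV ∈ p.domain), p ⟨t • fV, hx⟩ = t := by
      intro t hx
      exact (LinearPMap.mkSpanSingleton'_apply fV (1 : ℝ) _ t hx).trans (by simp)
    have e3 : (⟨fV, Submodule.mem_span_singleton_self _⟩ : p.domain) =
        ⟨(1 : ℝ) • fV, Submodule.mem_span_singleton.mpr ⟨1, rfl⟩⟩ := by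
      apply Subtype.ext
      simp
    rw [e3]
    exact e2 1 _

end Backward

end Pool.Agent.MP_587aff_al
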