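import Pool.Agent.MP_587aff_al.Defs

set_option autoImplicit false
open scoped Pointwise
open Filter Topology

namespace Pool.Agent.MP_587aff_al

universe u

section Growth
variable {G : Type u} [Group G]

/-- A flow-type weight that kills invariant forms. -/
theorem no_form_of_weight (w : G → ℝ) (lam : ℝ) (hlam : 1 < lam) (hw0 : ∀ x, 0 ≤ w x)
    (S : Finset G) (A : G → Set G)
    (hA : ∀ s ∈ S, ∀ t ∈ S, s ≠ t → Disjoint (A s) (A t))
    (hrel : ∀ x, lam * w x ≤ ∑ s ∈ S, (A s).indicator w (s * x)) :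
    ¬ HasInvariantForm w := by
  classical
  rintro ⟨φ, hadd, hsmul, hpos, hinv, hone⟩
  -- dominated functions
  have dom_of_le : ∀ h : G → ℝ, (∀ x, |h x| ≤ w x) → Dominated w h := by
    intro h hh
    refine ⟨{1}, 1, fun x => ?_⟩
    simpa using hh x
  have hind : ∀ s, Dominated w ((A s).indicator w) := by
    intro s
    apply dom_of_le
    intro x
    by_cases hx : x ∈ A s
    · simp [hx, abs_of_nonneg (hw0 x)]
    · simp [hx, hw0 x]
  have hshift : ∀ s, Dominated w (fun x => (A s).indicator w (s * x)) := by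
    intro s
    refine ⟨{s⁻¹}, 1, fun x => ?_⟩
    simp only [Finset.sum_singleton, inv_inv, one_mul]
    by_cases hx : s * x ∈ A s
    · simp [hx, abs_of_nonneg (hw0 _)]
    · simp [hx, hw0 _]
  have hdadd : ∀ h k : G → ℝ, Dominated w h → Dominated w k → Dominated w (h + k) := by
    rintro h k ⟨S1, c1, h1⟩ ⟨S2, c2, h2⟩
    refine ⟨S1 ∪ S2, |c1| + |c2|, fun x => ?_⟩
    have e1 : ∑ s ∈ S1, w (s⁻¹ * x) ≤ ∑ s ∈ S1 ∪ S2, w (s⁻¹ * x) :=
      Finset.sum_le_sum_of_subset_of_nonneg Finset.subset_union_left (fun _ _ _ => hw0 _)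
    have e2 : ∑ s ∈ S2, w (s⁻¹ * x) ≤ ∑ s ∈ S1 ∪ S2, w (s⁻¹ * x) :=
      Finset.sum_le_sum_of_subset_of_nonneg Finset.subset_union_right (fun _ _ _ => hw0 _)
    have p1 : 0 ≤ ∑ s ∈ S1, w (s⁻¹ * x) := Finset.sum_nonneg (fun _ _ => hw0 _)
    have p2 : 0 ≤ ∑ s ∈ S2, w (s⁻¹ * x) := Finset.sum_nonneg (fun _ _ => hw0 _)
    calc |(h + k) x| ≤ |h x| + |k x| := abs_add_le _ _
      _ ≤ c1 * ∑ s ∈ S1, w (s⁻¹ * x) + c2 * ∑ s ∈ S2, w (s⁻¹ * x) := add_le_add (h1 x) (h2 x)
      _ ≤ |c1| * ∑ s ∈ S1 ∪ S2, w (s⁻¹ * x) + |c2| * ∑ s ∈ S1 ∪ S2, w (s⁻¹ * x) := by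
          apply add_le_add
          · exact mul_le_mul (le_abs_self _) e1 p1 (abs_nonneg _)
          · exact mul_le_mul (le_abs_self _) e2 p2 (abs_nonneg _)
      _ = (|c1| + |c2|) * ∑ s ∈ S1 ∪ S2, w (s⁻¹ * x) := by ring
  have hdsmul : ∀ (a : ℝ) (h : G → ℝ), Dominated w h → Dominated w (a • h) := by
    rintro a h ⟨S1, c1, h1⟩
    refine ⟨S1, |a| * c1, fun x => ?_⟩
    simp only [Pi.smul_apply, smul_eq_mul, abs_mul, mul_assoc]
    exact mul_le_mul_of_nonneg_left (h1 x) (abs_nonneg a)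
  have hzero : φ 0 = 0 := by
    have := hsmul 0 w (dom_of_le w (fun x => by rw [abs_of_nonneg (hw0 x)]))
    simpa using this
  -- finite sums
  have hsum : ∀ (F : G → (G → ℝ)), (∀ s, Dominated w (F s)) → ∀ T : Finset G,
      Dominated w (∑ s ∈ T, F s) ∧ φ (∑ s ∈ T, F s) = ∑ s ∈ T, φ (F s) := by
    intro F hF T
    induction T using Finset.induction_on with
    | empty => exact ⟨by simpa using dom_of_le 0 (fun x => by simpa using hw0 x), by simpa using hzero⟩
    | insert a T ha ih =>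
      rw [Finset.sum_insert ha, Finset.sum_insert ha]
      exact ⟨hdadd _ _ (hF a) ih.1, by rw [hadd _ _ (hF a) ih.1, ih.2]⟩
  have hmono : ∀ h k : G → ℝ, Dominated w h → Dominated w k → (∀ x, h x ≤ k x) → φ h ≤ φ k := by
    intro h k hh hk hle
    have hd : Dominated w (k + (-1 : ℝ) • h) := hdadd _ _ hk (hdsmul _ _ hh)
    have h0 : 0 ≤ φ (k + (-1 : ℝ) • h) := hpos _ hd (fun x => by
      simp only [Pi.add_apply, Pi.smul_apply, smul_eq_mul]; linarith [hle x])
    rw [hadd _ _ hk (hdsmul _ _ hh), hsmul _ _ hh] at h0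
    linarith
  have hw : Dominated w w := dom_of_le w (fun x => by rw [abs_of_nonneg (hw0 x)])
  -- upper bound
  have hle1 : ∑ s ∈ S, φ ((A s).indicator w) ≤ φ w := by
    rw [← (hsum (fun s => (A s).indicator w) hind S).2]
    refine hmono _ _ (hsum (fun s => (A s).indicator w) hind S).1 hw (fun x => ?_)
    rw [Finset.sum_apply]
    by_cases hx : ∃ s ∈ S, x ∈ A s
    · obtain ⟨s, hs, hxs⟩ := hx
      rw [Finset.sum_eq_single s]
      · simp [hxs]
      · intro t ht hts
        have := hA t ht s hs hts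
        have : x ∉ A t := fun h => (Set.disjoint_left.mp this h hxs)
        simp [this]
      · intro h; exact absurd hs h
    · push Not at hx
      rw [Finset.sum_eq_zero]
      · exact hw0 x
      · intro s hs
        simp [hx s hs]
  have hle2 : lam * φ w ≤ ∑ s ∈ S, φ (fun x => (A s).indicator w (s * x)) := by
    rw [← hsmul lam w hw, ← (hsum (fun s => (fun x => (A s).indicator w (s * x))) hshift S).2]
    refine hmono _ _ (hdsmul _ _ hw)
      (hsum (fun s => (fun x => (A s).indicator w (s * x))) hshift S).1 (fun x => ?_)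
    rw [Finset.sum_apply]
    simpa using hrel x
  have heq : ∀ s, φ (fun x => (A s).indicator w (s * x)) = φ ((A s).indicator w) := by
    intro s
    have := hinv s⁻¹ ((A s).indicator w) (hind s)
    simpa using this
  rw [hone] at hle1 hle2
  rw [Finset.sum_congr rfl (fun s _ => heq s)] at hle2
  linarith

end Growth

end Pool.Agent.MP_587aff_al
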