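import Mathlib

set_option autoImplicit false
open Filter Topology

namespace Pool.Agent.MP_587aff_al

universe u

/-- The algebraic dual of `V` with the topology of pointwise convergence. -/
def WD (V : Type u) [AddCommGroup V] [Module ℝ V] : Type u := V →ₗ[ℝ] ℝ

namespace WD
variable (V : Type u) [AddCommGroup V] [Module ℝ V]

instance : AddCommGroup (WD V) := inferInstanceAs (AddCommGroup (V →ₗ[ℝ] ℝ))
instance : Module ℝ (WD V) := inferInstanceAs (Module ℝ (V →ₗ[ℝ] ℝ))

/-- Evaluation. -/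
def ev : WD V →ₗ[ℝ] (V → ℝ) where
  toFun m := fun v => (show V →ₗ[ℝ] ℝ from m) v
  map_add' _ _ := rfl
  map_smul' _ _ := rfl

variable {V}

theorem ev_inj : Function.Injective (ev V) := fun _ _ h => LinearMap.ext (fun v => congrFun h v)

theorem ext_ev {m : WD V} (h : ∀ v, ev V m v = 0) : m = 0 :=
  ev_inj (by rw [map_zero]; exact funext h)

theorem ev_add (m : WD V) (v w : V) : ev V m (v + w) = ev V m v + ev V m w :=
  map_add (show V →ₗ[ℝ] ℝ from m) v w

theorem ev_smul (m : WD V) (c : ℝ) (v : V) : ev V m (c • v) = c * ev V m v :=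
  map_smul (show V →ₗ[ℝ] ℝ from m) c v

theorem ev_sub (m : WD V) (v w : V) : ev V m (v - w) = ev V m v - ev V m w :=
  map_sub (show V →ₗ[ℝ] ℝ from m) v w

theorem ev_sum {ι : Type*} (m : WD V) (s : Finset ι) (f : ι → V) :
    ev V m (∑ i ∈ s, f i) = ∑ i ∈ s, ev V m (f i) :=
  map_sum (show V →ₗ[ℝ] ℝ from m) f s

theorem add_ev (m n : WD V) (v : V) : ev V (m + n) v = ev V m v + ev V n v := rfl
theorem smul_ev (c : ℝ) (m : WD V) (v : V) : ev V (c • m) v = c * ev V m v := rfl
theorem neg_ev (m : WD V) (v : V) : ev V (-m) v = -ev V m v := rfl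
theorem zero_ev (v : V) : ev V (0 : WD V) v = 0 := rfl

/-- Build an element. -/
def mk (f : V →ₗ[ℝ] ℝ) : WD V := f

theorem mk_ev (f : V →ₗ[ℝ] ℝ) (v : V) : ev V (mk f) v = f v := rfl

instance : TopologicalSpace (WD V) := TopologicalSpace.induced (ev V) Pi.topologicalSpace
instance : IsTopologicalAddGroup (WD V) := topologicalAddGroup_induced (ev V)
instance : ContinuousSMul ℝ (WD V) := continuousSMul_induced (ev V)

theorem ev_withSeminorms : WithSeminorms
    (fun v : V => ((LinearMap.proj v : (V → ℝ) →ₗ[ℝ] ℝ).comp (ev V)).toSeminorm) := by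
  let e : V ≃ (Σ _ : V, Fin 1) := .symm <| .sigmaUnique _ _
  exact LinearMap.withSeminorms_induced (withSeminorms_pi (fun _ ↦ norm_withSeminorms ℝ ℝ))
    (ev V) |>.congr_equiv e

instance : LocallyConvexSpace ℝ (WD V) := ev_withSeminorms.toLocallyConvexSpace

instance : T2Space (WD V) :=
  T2Space.of_injective_continuous ev_inj continuous_induced_dom

theorem continuous_ev (v : V) : Continuous (fun m : WD V => ev V m v) :=
  (continuous_apply v).comp continuous_induced_dom

theorem continuous_of_ev {X : Type*} [TopologicalSpace X] {f : X → WD V}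
    (h : ∀ v, Continuous (fun x => ev V (f x) v)) : Continuous f :=
  continuous_induced_rng.mpr (continuous_pi h)

/-- Evaluation at `v` as a continuous linear form. -/
def evC (v : V) : WD V →L[ℝ] ℝ :=
  ⟨(LinearMap.proj v : (V → ℝ) →ₗ[ℝ] ℝ).comp (ev V), continuous_ev v⟩

theorem evC_apply (v : V) (m : WD V) : evC v m = ev V m v := rfl

theorem dual_eq (l : WD V →L[ℝ] ℝ) : ∃ v : V, l = evC v := by
  obtain ⟨v, hv⟩ := LinearMap.dualEmbedding_surjective
    (LinearMap.id : (V →ₗ[ℝ] ℝ) →ₗ[ℝ] V →ₗ[ℝ] ℝ) (show _ from l)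
  refine ⟨v, ?_⟩
  ext m
  have h := congrArg (fun (f : StrongDual ℝ (WeakBilin
    (LinearMap.id : (V →ₗ[ℝ] ℝ) →ₗ[ℝ] V →ₗ[ℝ] ℝ))) => f m) hv
  exact h.symm

theorem bounded_of (s : Set (WD V)) (h : ∀ v, ∃ r : ℝ, ∀ m ∈ s, |ev V m v| ≤ r) :
    Bornology.IsVonNBounded ℝ s := by
  rw [ev_withSeminorms.isVonNBounded_iff_seminorm_bounded]
  intro v
  obtain ⟨r, hr⟩ := h v
  refine ⟨|r| + 1, by positivity, fun m hm => ?_⟩
  change |ev V m v| < _
  have := hr m hm
  have := le_abs_self r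
  linarith

end WD

end Pool.Agent.MP_587aff_al
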