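import Pool.Agent.MP_587aff_al.Backward
import Pool.Agent.MP_587aff_al.WD

set_option autoImplicit false
open scoped Pointwise
open Filter Topology

namespace Pool.Agent.MP_587aff_al

universe u

section FormToCone

variable {G : Type u} [Group G]

/-- Density: a linear form on the dual which is nonnegative on the dual cone is a weak limit of
points of the cone. -/
theorem exists_filter {E : Type u} [AddCommGroup E] [Module ℝ E] [TopologicalSpace E]
    [IsTopologicalAddGroup E] [ContinuousSMul ℝ E]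
    (C : Set E) (h0 : (0 : E) ∈ C) (hadd : ∀ x ∈ C, ∀ y ∈ C, x + y ∈ C)
    (hsmul : ∀ c : ℝ, 0 ≤ c → ∀ x ∈ C, c • x ∈ C)
    (L : (E →L[ℝ] ℝ) →ₗ[ℝ] ℝ) (hL : ∀ l : E →L[ℝ] ℝ, (∀ x ∈ C, 0 ≤ l x) → 0 ≤ L l) :
    ∃ F : Filter E, F.NeBot ∧ C ∈ F ∧ ∀ l : E →L[ℝ] ℝ, Tendsto l F (𝓝 (L l)) := by
  classical
  let B : ((E →L[ℝ] ℝ) →ₗ[ℝ] ℝ) →ₗ[ℝ] (E →L[ℝ] ℝ) →ₗ[ℝ] ℝ := LinearMap.id
  let X := WeakBilin B
  let ev : E → X := fun x => show (E →L[ℝ] ℝ) →ₗ[ℝ] ℝ from
    { toFun := fun l => l x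
      map_add' := fun _ _ => rfl
      map_smul' := fun _ _ => rfl }
  have hev : ∀ x l, B (ev x) l = l x := fun x l => rfl
  have hevadd : ∀ x y, ev (x + y) = ev x + ev y := by
    intro x y
    apply LinearMap.ext
    intro l
    exact map_add l x y
  have hevsmul : ∀ (c : ℝ) x, ev (c • x) = c • ev x := by
    intro c x
    apply LinearMap.ext
    intro l
    exact map_smul l c x
  let LX : X := L
  have hmem : LX ∈ closure (ev '' C) := by
    by_contra hnot
    have hconv : Convex ℝ (ev '' C) := by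
      rintro _ ⟨x, hx, rfl⟩ _ ⟨y, hy, rfl⟩ a b ha hb _
      refine ⟨a • x + b • y, hadd _ (hsmul a ha x hx) _ (hsmul b hb y hy), ?_⟩
      rw [hevadd, hevsmul, hevsmul]
    obtain ⟨f, c, hf1, hf2⟩ := geometric_hahn_banach_point_closed hconv.closure isClosed_closure hnot
    obtain ⟨l, rfl⟩ := LinearMap.dualEmbedding_surjective B f
    have e1 : ∀ z : X, (WeakBilin.eval B l) z = B z l := fun z => rfl
    have h2 : ∀ x ∈ C, c < l x := by
      intro x hx
      have := hf2 (ev x) (subset_closure ⟨x, hx, rfl⟩)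
      rw [e1, hev] at this
      exact this
    have hc : c < 0 := by
      have := h2 0 h0
      simpa using this
    have h3 : ∀ x ∈ C, 0 ≤ l x := by
      intro x hx
      by_contra hneg
      push Not at hneg
      -- scale
      have hpos : 0 ≤ c / l x := div_nonneg_of_nonpos hc.le hneg.le
      have := h2 _ (hsmul (c / l x) hpos x hx)
      rw [map_smul, smul_eq_mul, div_mul_cancel₀ _ hneg.ne] at this
      exact lt_irrefl _ this
    have h4 := hL l h3
    rw [e1] at hf1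
    have h5 : B LX l = L l := rfl
    rw [h5] at hf1
    linarith
  refine ⟨comap ev (𝓝 LX) ⊓ 𝓟 C, ?_, mem_inf_of_right (mem_principal_self C), ?_⟩
  · rw [inf_principal_neBot_iff]
    intro U hU
    obtain ⟨V, hV, hVU⟩ := mem_comap.mp hU
    obtain ⟨_, hyV, ⟨x, hx, rfl⟩⟩ := mem_closure_iff_nhds.mp hmem V hV
    exact ⟨x, hVU hyV, hx⟩
  · intro l
    have h1 : Continuous fun z : X => B z l := WeakBilin.eval_continuous B l
    have h2 : Tendsto (fun z : X => B z l) (𝓝 LX) (𝓝 (L l)) := h1.tendsto LX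
    have h3 : Tendsto ev (comap ev (𝓝 LX) ⊓ 𝓟 C) (𝓝 LX) :=
      (tendsto_comap).mono_left inf_le_left
    exact h2.comp h3

theorem cones_of_form (hG : FormProperty G) : FixedPointPropertyForCones G := by
  classical
  intro E _ _ _ _ _ _ _ ρ C hC hlb hcb
  obtain ⟨x0, hx0C, hx0, hbdd⟩ := hlb
  obtain ⟨φ, hφ⟩ := hcb
  -- a nonnegative dominating form
  obtain ⟨n, g, hg⟩ := hφ φ
  let ψ : E →L[ℝ] ℝ := ∑ i, φ.comp (ρ (g i)⁻¹)
  have hψ : ∀ x, ψ x = ∑ i, φ (ρ (g i)⁻¹ x) := by
    intro x; simp [ψ]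
  have hψ0 : ∀ x ∈ C, 0 ≤ ψ x := by
    intro x hx
    have := hg x hx
    rw [hψ]
    linarith [this.1, this.2]
  have hφψ : ∀ x ∈ C, φ x ≤ ψ x := fun x hx => by rw [hψ]; exact (hg x hx).1
  have horb : ∀ g, ρ g x0 ∈ C := fun g => hC.maps g x0 hx0C
  -- orbit functions
  let F : (E →L[ℝ] ℝ) → G → ℝ := fun l g => l (ρ g x0)
  have hF0 : ∀ x, 0 ≤ F ψ x := fun x => hψ0 _ (horb x)
  have hbd : ∃ M, ∀ x, F ψ x ≤ M := by
    have h1 : Bornology.IsVonNBounded ℝ (ψ '' (Set.range fun g => ρ g x0)) := hbdd.image ψ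
    rw [NormedSpace.isVonNBounded_iff] at h1
    obtain ⟨M, hM⟩ := h1.exists_norm_le
    exact ⟨M, fun x => (le_abs_self _).trans (hM _ ⟨_, ⟨x, rfl⟩, rfl⟩)⟩
  have hdom : ∀ l, Dominated (F ψ) (F l) := by
    intro l
    obtain ⟨m, k, hk⟩ := hφ l
    refine ⟨Finset.univ.image k, m, fun x => ?_⟩
    have h1 : |F l x| ≤ ∑ i, F ψ ((k i)⁻¹ * x) := by
      have h2 := hk _ (horb x)
      have h3 : ∀ i, φ (ρ (k i)⁻¹ (ρ x x0)) ≤ F ψ ((k i)⁻¹ * x) := by
        intro i
        have h4 : ρ (k i)⁻¹ (ρ x x0) = ρ ((k i)⁻¹ * x) x0 := by rw [map_mul]; rfl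
        rw [h4]
        exact hφψ _ (horb _)
      have h5 := Finset.sum_le_sum (s := Finset.univ) (fun i _ => h3 i)
      rw [abs_le]
      constructor
      · have := h2.2; simp only [F]; linarith
      · have := h2.1; simp only [F]; linarith
    refine h1.trans ?_
    calc ∑ i, F ψ ((k i)⁻¹ * x) ≤ ∑ i : Fin m, ∑ s ∈ Finset.univ.image k, F ψ (s⁻¹ * x) := by
          apply Finset.sum_le_sum
          intro i _
          exact Finset.single_le_sum (f := fun s => F ψ (s⁻¹ * x)) (fun _ _ => hF0 _)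
            (Finset.mem_image_of_mem k (Finset.mem_univ i))
      _ = m * ∑ s ∈ Finset.univ.image k, F ψ (s⁻¹ * x) := by
          rw [Finset.sum_const, nsmul_eq_mul, Finset.card_univ, Fintype.card_fin]
  have hne : ∃ x, F ψ x ≠ 0 := by
    by_contra hall
    push Not at hall
    apply hx0
    by_contra hx0'
    obtain ⟨l, hl⟩ := SeparatingDual.exists_ne_zero (R := ℝ) hx0'
    obtain ⟨S, c, hS⟩ := hdom l
    have h1 := hS 1
    simp only [hall, Finset.sum_const_zero, mul_zero] at h1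
    have h2 : F l 1 = l x0 := by simp [F]
    rw [h2] at h1
    exact hl (abs_eq_zero.mp (le_antisymm h1 (abs_nonneg _)))
  obtain ⟨μ, hadd, hsmul, hpos, hinv, hone⟩ := hG (F ψ) hF0 hbd hne
  have hFadd : ∀ l m, F (l + m) = F l + F m := fun l m => rfl
  have hFsmul : ∀ (c : ℝ) l, F (c • l) = c • F l := fun c l => rfl
  let L : (E →L[ℝ] ℝ) →ₗ[ℝ] ℝ :=
    { toFun := fun l => μ (F l)
      map_add' := fun l m => by rw [hFadd]; exact hadd _ _ (hdom l) (hdom m)
      map_smul' := fun c l => by rw [hFsmul]; exact hsmul _ _ (hdom l) }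
  have hLpos : ∀ l : E →L[ℝ] ℝ, (∀ x ∈ C, 0 ≤ l x) → 0 ≤ L l := by
    intro l hl
    exact hpos _ (hdom l) (fun x => hl _ (horb x))
  obtain ⟨Fl, hFne, hFC, hFt⟩ := exists_filter C hC.zero_mem hC.add_mem hC.smul_mem L hLpos
  obtain ⟨c, hcC, hc⟩ := hC.complete Fl hFne hFC (fun l => (hFt l).cauchy_map)
  have hval : ∀ l : E →L[ℝ] ℝ, l c = L l := by
    intro l
    exact tendsto_nhds_unique (hc l) (hFt l)
  refine ⟨c, hcC, ?_, ?_⟩
  · intro h0
    have h1 := hval ψ
    rw [h0, map_zero] at h1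
    have h2 : L ψ = 1 := hone
    rw [h2] at h1
    exact zero_ne_one h1
  · intro a
    by_contra hne'
    obtain ⟨l, hl⟩ := SeparatingDual.exists_ne_zero (R := ℝ) (sub_ne_zero.mpr hne')
    apply hl
    rw [map_sub, sub_eq_zero]
    have h1 : l (ρ a c) = (l.comp (ρ a)) c := rfl
    rw [h1, hval, hval]
    have h2 : F (l.comp (ρ a)) = fun x => F l ((a⁻¹)⁻¹ * x) := by
      funext x
      simp only [F, inv_inv]
      rw [map_mul]
      rfl
    change μ (F (l.comp (ρ a))) = μ (F l)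
    rw [h2]
    exact hinv a⁻¹ (F l) (hdom l)

end FormToCone

section ConeToGrowth

variable {G : Type u} [Group G]

/-- The translation action on the space of functions dominated by `w`. -/
def shiftLin (w : G → ℝ) (hw : ∀ x, 0 ≤ w x) (g : G) : domSpace w hw →ₗ[ℝ] domSpace w hw where
  toFun h := ⟨fun x => (h : G → ℝ) (g⁻¹ * x), dominated_shift g h.2⟩
  map_add' _ _ := rfl
  map_smul' _ _ := rfl

/-- The translation action on the dual space. -/
def shiftDual (w : G → ℝ) (hw : ∀ x, 0 ≤ w x) (g : G) :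
    WD (domSpace w hw) →L[ℝ] WD (domSpace w hw) where
  toFun m := WD.mk ((show domSpace w hw →ₗ[ℝ] ℝ from m).comp (shiftLin w hw g⁻¹))
  map_add' _ _ := rfl
  map_smul' _ _ := rfl
  cont := WD.continuous_of_ev (fun v => WD.continuous_ev (shiftLin w hw g⁻¹ v))

theorem shiftDual_ev (w : G → ℝ) (hw : ∀ x, 0 ≤ w x) (g : G) (m : WD (domSpace w hw))
    (v : domSpace w hw) :
    WD.ev _ (shiftDual w hw g m) v = WD.ev _ m (shiftLin w hw g⁻¹ v) := rfl

/-- The representation on the dual space. -/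
def dualRep (w : G → ℝ) (hw : ∀ x, 0 ≤ w x) : G →* (WD (domSpace w hw) →L[ℝ] WD (domSpace w hw)) where
  toFun := shiftDual w hw
  map_one' := by
    ext m
    apply WD.ev_inj
    funext v
    rw [shiftDual_ev]
    have : shiftLin w hw (1 : G)⁻¹ v = v := by
      apply Subtype.ext
      funext x
      simp [shiftLin]
    rw [this]
    rfl
  map_mul' a b := by
    ext m
    apply WD.ev_inj
    funext v
    have e1 : (shiftDual w hw a * shiftDual w hw b) m = shiftDual w hw a (shiftDual w hw b m) := rfl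
    rw [e1, shiftDual_ev, shiftDual_ev, shiftDual_ev]
    have : shiftLin w hw (a * b)⁻¹ v = shiftLin w hw b⁻¹ (shiftLin w hw a⁻¹ v) := by
      apply Subtype.ext
      funext x
      simp [shiftLin, mul_assoc]
    rw [this]

theorem dualRep_ev (w : G → ℝ) (hw : ∀ x, 0 ≤ w x) (g : G) (m : WD (domSpace w hw))
    (v : domSpace w hw) :
    WD.ev _ (dualRep w hw g m) v = WD.ev _ m (shiftLin w hw g⁻¹ v) := rfl

/-- The cone of positive linear forms. -/
def posCone (w : G → ℝ) (hw : ∀ x, 0 ≤ w x) : Set (WD (domSpace w hw)) :=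
  {m | ∀ v : domSpace w hw, (∀ x, 0 ≤ (v : G → ℝ) x) → 0 ≤ WD.ev _ m v}

/-- `w` as an element of its own domination space. -/
def selfV (w : G → ℝ) (hw : ∀ x, 0 ≤ w x) : domSpace w hw := ⟨w, dominated_self hw⟩

theorem dom_level {w : G → ℝ} (hw : ∀ x, 0 ≤ w x) (v : domSpace w hw) :
    ∃ (S : Finset G) (N : ℕ), (∀ x, |(v : G → ℝ) x| ≤ N * ∑ s ∈ S, w (s⁻¹ * x)) ∧
      ∀ m ∈ posCone w hw,
      |WD.ev _ m v| ≤ N * ∑ s ∈ S, WD.ev _ m (shiftLin w hw s (selfV w hw)) := by
  obtain ⟨v, S, c, hv⟩ := v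
  obtain ⟨N, hN⟩ := exists_nat_ge c
  have hle : ∀ x, |v x| ≤ N * ∑ s ∈ S, w (s⁻¹ * x) := fun x =>
    (hv x).trans (mul_le_mul_of_nonneg_right hN (Finset.sum_nonneg (fun _ _ => hw _)))
  refine ⟨S, N, hle, fun m hm => ?_⟩
  set u : domSpace w hw := (N : ℝ) • ∑ s ∈ S, shiftLin w hw s (selfV w hw) with hu
  have hsum : (N : ℝ) * ∑ s ∈ S, WD.ev _ m (shiftLin w hw s (selfV w hw)) = WD.ev _ m u := by
    rw [hu, WD.ev_smul, WD.ev_sum]
  have hcoe : ∀ x, (u : G → ℝ) x = N * ∑ s ∈ S, w (s⁻¹ * x) := by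
    intro x
    simp [hu, shiftLin, selfV]
  rw [hsum, abs_le]
  constructor
  · have := hm (u + ⟨v, S, c, hv⟩) (fun x => by
      have h1 : (((u + ⟨v, S, c, hv⟩ : domSpace w hw)) : G → ℝ) x =
        (u : G → ℝ) x + v x := rfl
      rw [h1, hcoe]
      linarith [(abs_le.mp (hle x)).1])
    rw [WD.ev_add] at this
    linarith
  · have := hm (u - ⟨v, S, c, hv⟩) (fun x => by
      have h1 : (((u - ⟨v, S, c, hv⟩ : domSpace w hw)) : G → ℝ) x =
        (u : G → ℝ) x - v x := rfl
      rw [h1, hcoe]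
      linarith [(abs_le.mp (hle x)).2])
    rw [WD.ev_sub] at this
    linarith

theorem isConeRep_dualRep {w : G → ℝ} (hw : ∀ x, 0 ≤ w x) :
    IsConeRep (dualRep w hw) (posCone w hw) := by
  refine ⟨?_, ?_, ?_, ?_, ?_, ?_⟩
  · intro v _; exact le_of_eq (WD.zero_ev v).symm
  · intro a ha b hb v hv
    rw [WD.add_ev]
    exact add_nonneg (ha v hv) (hb v hv)
  · intro c hc a ha v hv
    rw [WD.smul_ev]
    exact mul_nonneg hc (ha v hv)
  · intro a ha hna
    have hw' : ∀ s, WD.ev _ a (shiftLin w hw s (selfV w hw)) = 0 := by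
      intro s
      have h1 := ha (shiftLin w hw s (selfV w hw)) (fun x => hw _)
      have h2 := hna (shiftLin w hw s (selfV w hw)) (fun x => hw _)
      rw [WD.neg_ev] at h2
      linarith
    apply WD.ext_ev
    intro v
    obtain ⟨S, N, -, hS⟩ := dom_level hw v
    have h1 := hS a ha
    simp only [hw', Finset.sum_const_zero, mul_zero] at h1
    exact abs_eq_zero.mp (le_antisymm h1 (abs_nonneg _))
  · intro F hF hCF hcauchy
    have := hF
    have hlim : ∀ v : domSpace w hw, ∃ a : ℝ, Tendsto (fun m => WD.ev _ m v) F (𝓝 a) := by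
      intro v
      have h1 := hcauchy (WD.evC v)
      exact cauchy_map_iff_exists_tendsto.mp h1
    choose L hL using hlim
    let LE : domSpace w hw →ₗ[ℝ] ℝ :=
      { toFun := L
        map_add' := fun a b => by
          have h1 := (hL a).add (hL b)
          have h2 := hL (a + b)
          simp only [WD.ev_add] at h2
          exact tendsto_nhds_unique h2 h1
        map_smul' := fun c a => by
          have h1 := (hL a).const_mul c
          have h2 := hL (c • a)
          simp only [WD.ev_smul] at h2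
          exact tendsto_nhds_unique h2 h1 }
    refine ⟨WD.mk LE, ?_, ?_⟩
    · intro v hv
      refine ge_of_tendsto (hL v) ?_
      filter_upwards [hCF] with m hm
      exact hm v hv
    · intro l
      obtain ⟨v, rfl⟩ := WD.dual_eq l
      exact hL v
  · intro g m hm v hv
    rw [dualRep_ev]
    exact hm _ (fun x => hv _)

theorem locallyBounded_dualRep {w : G → ℝ} (hw : ∀ x, 0 ≤ w x) (hw1 : ∀ x, w x ≤ 1)
    (hone : w 1 = 1) : LocallyBoundedType (dualRep w hw) (posCone w hw) := by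
  let δ : WD (domSpace w hw) :=
    WD.mk ((LinearMap.proj (1 : G)).comp (domSpace w hw).subtype)
  have hδ : ∀ g (v : domSpace w hw), WD.ev _ (dualRep w hw g δ) v = (v : G → ℝ) g := by
    intro g v
    rw [dualRep_ev, WD.mk_ev]
    simp [shiftLin]
  refine ⟨δ, ?_, ?_, ?_⟩
  · intro v hv
    exact hv 1
  · intro h0
    have h1 := hδ 1 (selfV w hw)
    rw [h0, map_zero, WD.zero_ev] at h1
    simp only [selfV] at h1
    rw [hone] at h1
    exact zero_ne_one h1
  · apply WD.bounded_of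
    intro v
    obtain ⟨S, N, hS, -⟩ := dom_level hw v
    refine ⟨N * S.card, ?_⟩
    rintro _ ⟨g, rfl⟩
    simp only
    rw [hδ]
    refine (hS g).trans ?_
    apply mul_le_mul_of_nonneg_left _ (Nat.cast_nonneg N)
    calc ∑ s ∈ S, w (s⁻¹ * g) ≤ ∑ s ∈ S, (1 : ℝ) := Finset.sum_le_sum (fun s _ => hw1 _)
      _ = S.card := by simp

omit [Group G] in
theorem exists_enum (S : Finset G) (N : ℕ) :
    ∃ (n : ℕ) (g : Fin n → G), ∀ F : G → ℝ, ∑ i, F (g i) = N * ∑ s ∈ S, F s := by
  classical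
  let e := (S ×ˢ (Finset.range N)).equivFin
  refine ⟨(S ×ˢ (Finset.range N)).card, fun i => (e.symm i).1.1, fun F => ?_⟩
  rw [Equiv.sum_comp e.symm (fun p => F p.1.1)]
  rw [Finset.sum_coe_sort (S ×ˢ (Finset.range N)) (fun p => F p.1)]
  rw [Finset.sum_product]
  simp only [Finset.sum_const, Finset.card_range, nsmul_eq_mul]
  rw [← Finset.mul_sum]

theorem cobounded_dualRep {w : G → ℝ} (hw : ∀ x, 0 ≤ w x) :
    CoboundedType (dualRep w hw) (posCone w hw) := by
  refine ⟨WD.evC (selfV w hw), fun l => ?_⟩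
  obtain ⟨v, rfl⟩ := WD.dual_eq l
  obtain ⟨S, N, -, hS⟩ := dom_level hw v
  obtain ⟨n, k, hk⟩ := exists_enum S N
  refine ⟨n, k, ?_⟩
  intro m hm
  have h1 := abs_le.mp (hS m hm)
  have h2 : ∑ i, (WD.evC (selfV w hw)) (dualRep w hw (k i)⁻¹ m) =
      N * ∑ s ∈ S, WD.ev _ m (shiftLin w hw s (selfV w hw)) := by
    rw [hk (fun s => (WD.evC (selfV w hw)) (dualRep w hw s⁻¹ m))]
    congr 1
    apply Finset.sum_congr rfl
    intro s _
    rw [WD.evC_apply, dualRep_ev, inv_inv]
  rw [h2]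
  exact ⟨h1.2, neg_le.mp h1.1⟩

/-- An invariant positive nonzero form on the domination space gives a normalised one. -/
theorem form_of_fixed {w : G → ℝ} (hw : ∀ x, 0 ≤ w x) (m : WD (domSpace w hw))
    (hmC : m ∈ posCone w hw) (hm0 : m ≠ 0) (hfix : ∀ g, dualRep w hw g m = m) :
    HasInvariantForm w := by
  classical
  have hinvm : ∀ g (v : domSpace w hw), WD.ev _ m (shiftLin w hw g v) = WD.ev _ m v := by
    intro g v
    have h1 := dualRep_ev w hw g⁻¹ m v
    rw [hfix, inv_inv] at h1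
    exact h1.symm
  have hpos : 0 < WD.ev _ m (selfV w hw) := by
    refine lt_of_le_of_ne (hmC (selfV w hw) (fun x => hw x)) ?_
    intro h0
    apply hm0
    apply WD.ext_ev
    intro v
    obtain ⟨S, N, -, hS⟩ := dom_level hw v
    have h1 := hS m hmC
    simp only [hinvm, ← h0, Finset.sum_const_zero, mul_zero] at h1
    exact abs_eq_zero.mp (le_antisymm h1 (abs_nonneg _))
  refine ⟨fun h => if hh : Dominated w h then
    (WD.ev _ m (selfV w hw))⁻¹ * WD.ev _ m (⟨h, hh⟩ : domSpace w hw) else 0, ?_, ?_, ?_, ?_, ?_⟩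
  · intro h k hh hk
    simp only [hh, hk, dominated_add hw hh hk, dif_pos]
    rw [← mul_add, ← WD.ev_add]
    rfl
  · intro a h hh
    simp only [hh, dominated_smul a hh, dif_pos]
    have : (⟨a • h, dominated_smul a hh⟩ : domSpace w hw) = a • (⟨h, hh⟩ : domSpace w hw) := rfl
    rw [this, WD.ev_smul]
    ring
  · intro h hh hp
    simp only [hh, dif_pos]
    exact mul_nonneg (inv_nonneg.mpr hpos.le) (hmC _ hp)
  · intro a h hh
    simp only [hh, dominated_shift a hh, dif_pos]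
    congr 1
    exact hinvm a ⟨h, hh⟩
  · simp only [dominated_self hw, dif_pos]
    exact inv_mul_cancel₀ hpos.ne'

theorem growth_of_cones (hG : FixedPointPropertyForCones G) : LocallySubexponentialGrowth G := by
  by_contra hc
  obtain ⟨w, hw0, hw1, hw, hno⟩ := exists_bad_weight hc
  apply hno
  obtain ⟨m, hmC, hm0, hfix⟩ := hG (WD (domSpace w hw0)) (dualRep w hw0) (posCone w hw0)
    (isConeRep_dualRep hw0) (locallyBounded_dualRep hw0 hw1 hw) (cobounded_dualRep hw0)
  exact form_of_fixed hw0 m hmC hm0 hfix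

end ConeToGrowth

end Pool.Agent.MP_587aff_al
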