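import Mathlib

set_option autoImplicit false
open scoped Pointwise
open Filter Topology

namespace Pool.Agent.MP_587aff_al

universe u

/-- `h` is `G`-dominated by `f`: `|h| ≤ c * ∑_{s ∈ S} s·f` for some finite set `S` and constant `c`. -/
def Dominated {G : Type u} [Group G] (f h : G → ℝ) : Prop :=
  ∃ (S : Finset G) (c : ℝ), ∀ x, |h x| ≤ c * ∑ s ∈ S, f (s⁻¹ * x)

/-- There is a `G`-invariant positive linear form on the space `ℓ^∞(G; f)` of functions dominated
by `f`, taking the value `1` at `f`. -/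
def HasInvariantForm {G : Type u} [Group G] (f : G → ℝ) : Prop :=
  ∃ φ : (G → ℝ) → ℝ,
    (∀ h k : G → ℝ, Dominated f h → Dominated f k → φ (h + k) = φ h + φ k) ∧
    (∀ (a : ℝ) (h : G → ℝ), Dominated f h → φ (a • h) = a * φ h) ∧
    (∀ h : G → ℝ, Dominated f h → (∀ x, 0 ≤ h x) → 0 ≤ φ h) ∧
    (∀ (g : G) (h : G → ℝ), Dominated f h → φ (fun x => h (g⁻¹ * x)) = φ h) ∧
    φ f = 1

/-- Every non-zero bounded nonnegative function carries a normalised invariant form. -/
def FormProperty (G : Type u) [Group G] : Prop :=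
  ∀ f : G → ℝ, (∀ x, 0 ≤ f x) → (∃ M : ℝ, ∀ x, f x ≤ M) → (∃ x, f x ≠ 0) → HasInvariantForm f

/-- Locally subexponential growth: for every finite subset `S` and every `r > 1`, the product set
`S^n` has at most `r^n` elements for all large `n`. -/
def LocallySubexponentialGrowth (G : Type u) [Group G] : Prop :=
  ∀ (S : Finset G) (r : ℝ), 1 < r → ∀ᶠ n : ℕ in atTop, (((S : Set G) ^ n).ncard : ℝ) ≤ r ^ n

section Defs
variable {G : Type u} [Group G] {E : Type u} [AddCommGroup E] [Module ℝ E] [TopologicalSpace E]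

/-- `C` is complete for the weak topology of `E`: every filter on `C` whose image under each
continuous linear form is Cauchy converges weakly to a point of `C`. -/
def WeaklyComplete (C : Set E) : Prop :=
  ∀ F : Filter E, F.NeBot → C ∈ F → (∀ l : E →L[ℝ] ℝ, Cauchy (F.map l)) →
    ∃ c ∈ C, ∀ l : E →L[ℝ] ℝ, Tendsto l F (𝓝 (l c))

/-- A representation of `G` on the weakly complete proper convex cone `C` in `E`: an action of `G`
on `E` by continuous linear maps preserving `C`. -/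
structure IsConeRep (ρ : G →* (E →L[ℝ] E)) (C : Set E) : Prop where
  zero_mem : (0 : E) ∈ C
  add_mem : ∀ x ∈ C, ∀ y ∈ C, x + y ∈ C
  smul_mem : ∀ c : ℝ, 0 ≤ c → ∀ x ∈ C, c • x ∈ C
  proper : ∀ x ∈ C, -x ∈ C → x = 0
  complete : WeaklyComplete C
  maps : ∀ g, ∀ x ∈ C, ρ g x ∈ C

/-- Some non-zero point of the cone has a bounded orbit. -/
def LocallyBoundedType (ρ : G →* (E →L[ℝ] E)) (C : Set E) : Prop :=
  ∃ x ∈ C, x ≠ 0 ∧ Bornology.IsVonNBounded ℝ (Set.range fun g => ρ g x)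

/-- Some continuous linear form `φ` `G`-dominates every continuous linear form `l`: there are
`g₁, …, gₙ` with `± l ≤ ∑ gᵢ φ` on `C`, where `(g φ)(x) = φ (g⁻¹ x)`. -/
def CoboundedType (ρ : G →* (E →L[ℝ] E)) (C : Set E) : Prop :=
  ∃ φ : E →L[ℝ] ℝ, ∀ l : E →L[ℝ] ℝ, ∃ (n : ℕ) (g : Fin n → G), ∀ x ∈ C,
    l x ≤ ∑ i, φ (ρ (g i)⁻¹ x) ∧ -l x ≤ ∑ i, φ (ρ (g i)⁻¹ x)

end Defs

/-- The fixed-point property for cones. -/
def FixedPointPropertyForCones (G : Type u) [Group G] : Prop :=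
  ∀ (E : Type u) [AddCommGroup E] [Module ℝ E] [TopologicalSpace E] [IsTopologicalAddGroup E]
    [ContinuousSMul ℝ E] [LocallyConvexSpace ℝ E] [T2Space E]
    (ρ : G →* (E →L[ℝ] E)) (C : Set E),
    IsConeRep ρ C → LocallyBoundedType ρ C → CoboundedType ρ C →
      ∃ x ∈ C, x ≠ 0 ∧ ∀ g, ρ g x = x

end Pool.Agent.MP_587aff_al
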