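import Pool.Agent.MP_587aff_al.Weight

set_option autoImplicit false
open scoped Pointwise
open Filter Topology

namespace Pool.Agent.MP_587aff_al

universe u

section Forward
variable {G : Type u} [Group G]

theorem subexp_of_bounded (S : Finset G) (r lam C : ℝ) (hlam : 1 < lam) (hlr : lam < r)
    (hC : ∀ n, (sz S n : ℝ) / lam ^ n ≤ C) :
    ∀ᶠ n : ℕ in atTop, (((S : Set G) ^ n).ncard : ℝ) ≤ r ^ n := by
  have hlam0 : 0 < lam := by linarith
  have hr0 : 0 < r := by linarith
  have hC0 : 0 ≤ C := le_trans (by positivity) (hC 0)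
  have hbound : ∀ n : ℕ, (((S : Set G) ^ n).ncard : ℝ) ≤ C * ((n : ℝ) + 1) * lam ^ n := by
    intro n
    calc (((S : Set G) ^ n).ncard : ℝ) ≤ ((∑ k ∈ Finset.range (n + 1), sz S k : ℕ) : ℝ) := by
          exact_mod_cast card_pow_le_sum S n
      _ = ∑ k ∈ Finset.range (n + 1), (sz S k : ℝ) := by push_cast; rfl
      _ ≤ ∑ k ∈ Finset.range (n + 1), C * lam ^ n := by
          apply Finset.sum_le_sum
          intro k hk
          have hk' : k ≤ n := by simpa [Nat.lt_succ_iff] using hk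
          have h1 := hC k
          rw [div_le_iff₀ (by positivity)] at h1
          refine h1.trans (mul_le_mul_of_nonneg_left ?_ hC0)
          exact pow_le_pow_right₀ hlam.le hk'
      _ = C * ((n : ℝ) + 1) * lam ^ n := by
          rw [Finset.sum_const, Finset.card_range, nsmul_eq_mul]; push_cast; ring
  have hq : |lam / r| < 1 := by
    rw [abs_of_pos (by positivity), div_lt_one hr0]; exact hlr
  have h1 := tendsto_pow_const_mul_const_pow_of_abs_lt_one 1 hq
  have h2 := tendsto_pow_const_mul_const_pow_of_abs_lt_one 0 hq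
  have h3 : Tendsto (fun n : ℕ => C * (((n : ℝ) ^ 1 * (lam / r) ^ n) + ((n : ℝ) ^ 0 * (lam / r) ^ n)))
      atTop (𝓝 (C * (0 + 0))) := (h1.add h2).const_mul C
  have h4 : ∀ᶠ n : ℕ in atTop,
      C * (((n : ℝ) ^ 1 * (lam / r) ^ n) + ((n : ℝ) ^ 0 * (lam / r) ^ n)) < 1 :=
    h3.eventually (gt_mem_nhds (by simp))
  filter_upwards [h4] with n hn
  refine (hbound n).trans ?_
  have h5 : C * ((n : ℝ) + 1) * lam ^ n =
      (C * (((n : ℝ) ^ 1 * (lam / r) ^ n) + ((n : ℝ) ^ 0 * (lam / r) ^ n))) * r ^ n := by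
    rw [div_pow]
    field_simp
  rw [h5]
  calc _ ≤ 1 * r ^ n := mul_le_mul_of_nonneg_right hn.le (by positivity)
    _ = r ^ n := one_mul _

/-- If growth is not locally subexponential there is a bounded weight with no invariant form. -/
theorem exists_bad_weight (h : ¬ LocallySubexponentialGrowth G) :
    ∃ w : G → ℝ, (∀ x, 0 ≤ w x) ∧ (∀ x, w x ≤ 1) ∧ w 1 = 1 ∧ ¬ HasInvariantForm w := by
  unfold LocallySubexponentialGrowth at h
  push Not at h
  obtain ⟨S, r, hr, hne⟩ := h
  have hS : ∀ C : ℝ, ∃ n, C < (sz S n : ℝ) / ((1 + r) / 2) ^ n := by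
    by_contra hc
    push Not at hc
    obtain ⟨C, hC⟩ := hc
    apply hne
    have := subexp_of_bounded S r ((1 + r) / 2) C (by linarith) (by linarith) hC
    exact this.mono (fun n hn => not_lt.mpr hn)
  obtain ⟨w, A, hw0, hw1, hw, hA, hrel⟩ := exists_weight S ((1 + r) / 2) (by linarith) hS
  exact ⟨w, hw0, hw1, hw, no_form_of_weight w _ (by linarith) hw0 S A hA hrel⟩

theorem growth_of_formProperty (h : FormProperty G) : LocallySubexponentialGrowth G := by
  by_contra hc
  obtain ⟨w, hw0, hw1, hw, hno⟩ := exists_bad_weight hc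
  exact hno (h w hw0 ⟨1, hw1⟩ ⟨1, by rw [hw]; exact one_ne_zero⟩)

end Forward

end Pool.Agent.MP_587aff_al
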