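import Pool.Agent.MP_587aff_al.Basic

set_option autoImplicit false
open scoped Pointwise
open Filter Topology

namespace Pool.Agent.MP_587aff_al

universe u

section Weight
variable {G : Type u} [Group G]

/-- The ball of radius `n`. -/
def ball (S : Set G) (n : ℕ) : Set G := S ^ n

/-- The sphere of radius `n`. -/
def sph (S : Set G) (n : ℕ) : Set G := {x | x ∈ S ^ n ∧ ∀ k < n, x ∉ S ^ k}

theorem sph_unique {S : Set G} {n m : ℕ} {x : G} (h1 : x ∈ sph S n) (h2 : x ∈ sph S m) :
    n = m := by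
  rcases lt_trichotomy n m with h | h | h
  · exact absurd h1.1 (h2.2 n h)
  · exact h
  · exact absurd h2.1 (h1.2 m h)

theorem sph_zero {S : Set G} {x : G} : x ∈ sph S 0 ↔ x = 1 := by
  simp [sph]

theorem sph_succ {S : Set G} {n : ℕ} {y : G} (h : y ∈ sph S (n + 1)) :
    ∃ s ∈ S, s⁻¹ * y ∈ sph S n := by
  obtain ⟨h1, h2⟩ := h
  rw [pow_succ'] at h1
  obtain ⟨s, hs, x, hx, rfl⟩ := h1
  refine ⟨s, hs, ?_⟩
  have hx' : s⁻¹ * (s * x) = x := by group
  simp only [hx']
  refine ⟨hx, fun k hk hxk => ?_⟩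
  apply h2 (k + 1) (by omega)
  rw [pow_succ']
  exact ⟨s, hs, x, hxk, rfl⟩

theorem sph_of_mul {S : Set G} {j k : ℕ} {u x : G} (hx : x ∈ S ^ j) (hu : u ∈ S ^ k)
    (h : u * x ∈ sph S (j + k)) : u ∈ sph S k := by
  refine ⟨hu, fun i hi hui => ?_⟩
  apply h.2 (j + i) (by omega)
  rw [add_comm j i, pow_add]
  exact ⟨u, hui, x, hx, rfl⟩

theorem exists_parent (S : Set G) :
    ∃ σ : G → G, ∀ n y, y ∈ sph S (n + 1) → σ y ∈ S ∧ (σ y)⁻¹ * y ∈ sph S n := by
  classical
  have : ∀ y, ∃ s : G, ∀ n, y ∈ sph S (n + 1) → s ∈ S ∧ s⁻¹ * y ∈ sph S n := by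
    intro y
    by_cases h : ∃ n, y ∈ sph S (n + 1)
    · obtain ⟨n, hn⟩ := h
      obtain ⟨s, hs, hs'⟩ := sph_succ hn
      refine ⟨s, fun m hm => ?_⟩
      have : m = n := by have := sph_unique hm hn; omega
      subst this
      exact ⟨hs, hs'⟩
    · exact ⟨1, fun n hn => absurd ⟨n, hn⟩ h⟩
  choose σ hσ using this
  exact ⟨σ, fun n y h => hσ y n h⟩

/-- The parent map. -/
def par (σ : G → G) (y : G) : G := (σ y)⁻¹ * y

theorem par_iter_mem {S : Set G} {σ : G → G}
    (hσ : ∀ n y, y ∈ sph S (n + 1) → σ y ∈ S ∧ (σ y)⁻¹ * y ∈ sph S n) (k : ℕ) :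
    ∀ (j : ℕ) (z : G), z ∈ sph S (j + k) → (par σ)^[k] z ∈ sph S j := by
  induction k with
  | zero => intro j z hz; simpa using hz
  | succ k ih =>
    intro j z hz
    rw [Function.iterate_succ_apply]
    exact ih j _ (hσ (j + k) z hz).2

theorem par_iter_mul {S : Set G} {σ : G → G}
    (hσ : ∀ n y, y ∈ sph S (n + 1) → σ y ∈ S ∧ (σ y)⁻¹ * y ∈ sph S n) (k : ℕ) :
    ∀ (j : ℕ) (z : G), z ∈ sph S (j + k) → z * ((par σ)^[k] z)⁻¹ ∈ S ^ k := by
  induction k with
  | zero => intro j z hz; simp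
  | succ k ih =>
    intro j z hz
    rw [Function.iterate_succ_apply]
    have h1 := hσ (j + k) z hz
    have h2 := ih j _ h1.2
    rw [pow_succ']
    refine ⟨σ z, h1.1, _, h2, ?_⟩
    simp only [par]
    group

open Classical in
/-- Number of elements of the sphere of radius `m` whose `k`-th ancestor is `x`. -/
noncomputable def cnt (S : Finset G) (σ : G → G) (m k : ℕ) (x : G) : ℕ :=
  ((S ^ m).filter (fun z => z ∈ sph (S : Set G) m ∧ (par σ)^[k] z = x)).card

open Classical in
/-- Size of the sphere of radius `m`. -/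
noncomputable def sz (S : Finset G) (m : ℕ) : ℕ :=
  ((S ^ m).filter (fun z => z ∈ sph (S : Set G) m)).card

theorem cnt_le {S : Finset G} {σ : G → G}
    (hσ : ∀ n y, y ∈ sph (S : Set G) (n + 1) → σ y ∈ (S : Set G) ∧ (σ y)⁻¹ * y ∈ sph (S : Set G) n)
    (j k : ℕ) (x : G) (hx : x ∈ sph (S : Set G) j) : cnt S σ (j + k) k x ≤ sz S k := by
  classical
  unfold cnt sz
  apply Finset.card_le_card_of_injOn (fun z => z * x⁻¹)
  · intro z hz
    simp only [Finset.coe_filter, Set.mem_ofPred_eq] at hz ⊢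
    obtain ⟨hz1, hz2, hz3⟩ := hz
    have h1 := par_iter_mul hσ k j z hz2
    rw [hz3] at h1
    refine ⟨?_, ?_⟩
    · rw [← Finset.mem_coe, Finset.coe_pow]; exact h1
    · apply sph_of_mul (j := j) (x := x) hx.1 h1
      simpa using hz2
  · intro a _ b _ h
    simpa using h

theorem cnt_succ_le {S : Finset G} {σ : G → G}
    (hσ : ∀ n y, y ∈ sph (S : Set G) (n + 1) → σ y ∈ (S : Set G) ∧ (σ y)⁻¹ * y ∈ sph (S : Set G) n)
    (j k : ℕ) (x : G) :
    (cnt S σ (j + 1 + k) (k + 1) x : ℕ) ≤ ∑ s ∈ S,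
      ({y | y ∈ sph (S : Set G) (j + 1) ∧ σ y = s} : Set G).indicator
        (fun y => cnt S σ (j + 1 + k) k y) (s * x) := by
  classical
  unfold cnt
  have : ((S ^ (j + 1 + k)).filter (fun z => z ∈ sph (S : Set G) (j + 1 + k) ∧
      (par σ)^[k + 1] z = x)) ⊆ S.biUnion (fun s =>
        if (s * x) ∈ ({y | y ∈ sph (S : Set G) (j + 1) ∧ σ y = s} : Set G) then
          ((S ^ (j + 1 + k)).filter (fun z => z ∈ sph (S : Set G) (j + 1 + k) ∧
            (par σ)^[k] z = s * x)) else ∅) := by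
    intro z hz
    simp only [Finset.mem_filter] at hz
    obtain ⟨hz1, hz2, hz3⟩ := hz
    have h1 := par_iter_mem hσ k (j + 1) z hz2
    have h2 := hσ j _ h1
    set y := (par σ)^[k] z with hy
    have h3 : (σ y)⁻¹ * y = x := by
      rw [Function.iterate_succ_apply'] at hz3
      exact hz3
    have h4 : σ y * x = y := by rw [← h3]; group
    rw [Finset.mem_biUnion]
    refine ⟨σ y, by simpa using h2.1, ?_⟩
    rw [if_pos]
    · simp only [Finset.mem_filter]
      exact ⟨hz1, hz2, by rw [h4]⟩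
    · simp only [Set.mem_ofPred_eq]
      rw [h4]
      exact ⟨h1, rfl⟩
  refine (Finset.card_le_card this).trans (Finset.card_biUnion_le.trans ?_)
  apply Finset.sum_le_sum
  intro s _
  by_cases h : (s * x) ∈ ({y | y ∈ sph (S : Set G) (j + 1) ∧ σ y = s} : Set G)
  · rw [if_pos h, Set.indicator_of_mem h]
  · rw [if_neg h, Set.indicator_of_notMem h]; simp

theorem cnt_one {S : Finset G} {σ : G → G}
    (hσ : ∀ n y, y ∈ sph (S : Set G) (n + 1) → σ y ∈ (S : Set G) ∧ (σ y)⁻¹ * y ∈ sph (S : Set G) n)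
    (m : ℕ) : cnt S σ m m 1 = sz S m := by
  classical
  unfold cnt sz
  congr 1
  apply Finset.filter_congr
  intro z _
  constructor
  · exact fun h => h.1
  · intro h
    refine ⟨h, ?_⟩
    have := par_iter_mem hσ m 0 z (by simpa using h)
    exact sph_zero.mp this

theorem card_pow_le_sum (S : Finset G) (n : ℕ) :
    (((S : Set G) ^ n).ncard) ≤ ∑ k ∈ Finset.range (n + 1), sz S k := by
  classical
  have h1 : ((S : Set G) ^ n) ⊆ ((Finset.range (n + 1)).biUnion
      (fun k => (S ^ k).filter (fun z => z ∈ sph (S : Set G) k)) : Finset G) := by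
    intro x hx
    have hex : ∃ k, x ∈ (S : Set G) ^ k := ⟨n, hx⟩
    have hk := Nat.find_spec hex
    have hmin : ∀ k < Nat.find hex, x ∉ (S : Set G) ^ k := fun k hk => Nat.find_min hex hk
    have hle : Nat.find hex ≤ n := Nat.find_min' hex hx
    simp only [Finset.coe_biUnion, Finset.coe_range, Set.mem_Iio, Set.mem_iUnion,
      Finset.mem_coe, Finset.mem_filter, exists_prop]
    refine ⟨Nat.find hex, by omega, ?_, ⟨hk, hmin⟩⟩
    rw [← Finset.mem_coe, Finset.coe_pow]
    exact hk
  calc ((S : Set G) ^ n).ncard ≤ ((((Finset.range (n + 1)).biUnion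
      (fun k => (S ^ k).filter (fun z => z ∈ sph (S : Set G) k)) : Finset G)) : Set G).ncard :=
        Set.ncard_le_ncard h1 (Finset.finite_toSet _)
    _ = _ := Set.ncard_coe_finset _
    _ ≤ _ := Finset.card_biUnion_le

/-- Records: an unbounded sequence has arbitrarily late record times. -/
theorem exists_record (b : ℕ → ℝ) (hb : ∀ C : ℝ, ∃ n, C < b n) (N : ℕ) :
    ∃ m, N ≤ m ∧ 0 < b m ∧ ∀ k ≤ m, b k ≤ b m := by
  classical
  obtain ⟨M, hM⟩ : ∃ M : ℝ, 0 ≤ M ∧ ∀ k ≤ N, b k ≤ M := by
    refine ⟨∑ k ∈ Finset.range (N + 1), |b k|, Finset.sum_nonneg (fun _ _ => abs_nonneg _), ?_⟩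
    intro k hk
    refine (le_abs_self _).trans ?_
    exact Finset.single_le_sum (f := fun k => |b k|) (fun _ _ => abs_nonneg _)
      (Finset.mem_range.mpr (by omega))
  have hex := hb M
  refine ⟨Nat.find hex, ?_, ?_, ?_⟩
  · by_contra h
    push Not at h
    have := hM.2 (Nat.find hex) h.le
    exact absurd (Nat.find_spec hex) (not_lt.mpr this)
  · exact hM.1.trans_lt (Nat.find_spec hex)
  · intro k hk
    rcases hk.lt_or_eq with h | h
    · have := Nat.find_min hex h
      push Not at this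
      exact this.trans (Nat.find_spec hex).le
    · rw [h]

/-- From exponential growth we obtain the weight. -/
theorem exists_weight (S : Finset G) (lam : ℝ) (hlam : 1 < lam)
    (hS : ∀ C : ℝ, ∃ n, C < (sz S n : ℝ) / lam ^ n) :
    ∃ (w : G → ℝ) (A : G → Set G), (∀ x, 0 ≤ w x) ∧ (∀ x, w x ≤ 1) ∧ w 1 = 1 ∧
      (∀ s ∈ S, ∀ t ∈ S, s ≠ t → Disjoint (A s) (A t)) ∧
      (∀ x, lam * w x ≤ ∑ s ∈ S, (A s).indicator w (s * x)) := by
  classical
  obtain ⟨σ, hσ⟩ := exists_parent (S : Set G)
  have hlam0 : 0 < lam := by linarith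
  choose m hmN hmpos hmrec using exists_record _ hS
  -- approximants
  let W : ℕ → G → ℝ := fun m x => ∑ j ∈ Finset.range (m + 1),
    (sph (S : Set G) j).indicator (fun x => lam ^ j * cnt S σ m (m - j) x / sz S m) x
  have hW : ∀ m j x, j ≤ m → x ∈ sph (S : Set G) j →
      W m x = lam ^ j * cnt S σ m (m - j) x / sz S m := by
    intro m j x hj hx
    simp only [W]
    rw [Finset.sum_eq_single j]
    · rw [Set.indicator_of_mem hx]
    · intro i _ hi
      rw [Set.indicator_of_notMem]
      intro h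
      exact hi (sph_unique h hx)
    · intro h
      exact absurd (Finset.mem_range.mpr (by omega)) h
  have hW' : ∀ m x, (∀ j ≤ m, x ∉ sph (S : Set G) j) → W m x = 0 := by
    intro m x h
    simp only [W]
    apply Finset.sum_eq_zero
    intro j hj
    rw [Set.indicator_of_notMem (h j (by simpa [Nat.lt_succ_iff] using hj))]
  have hW0 : ∀ m x, 0 ≤ W m x := by
    intro m x
    apply Finset.sum_nonneg
    intro j _
    apply Set.indicator_nonneg
    intro x _
    positivity
  have hszpos : ∀ i, 0 < (sz S (m i) : ℝ) := by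
    intro i
    have h := hmpos i
    by_contra hc
    have : (sz S (m i) : ℝ) = 0 := le_antisymm (not_lt.mp hc) (by positivity)
    rw [this] at h
    simp at h
  have hW1 : ∀ i x, W (m i) x ≤ 1 := by
    intro i x
    by_cases h : ∃ j ≤ m i, x ∈ sph (S : Set G) j
    · obtain ⟨j, hj, hx⟩ := h
      rw [hW _ j x hj hx, div_le_one (hszpos i)]
      have h1 : cnt S σ (m i) (m i - j) x ≤ sz S (m i - j) := by
        have := cnt_le hσ j (m i - j) x hx
        rwa [Nat.add_sub_cancel' hj] at this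
      have h2 := hmrec i (m i - j) (Nat.sub_le _ _)
      rw [div_le_div_iff₀ (by positivity) (by positivity)] at h2
      have h3 : lam ^ (m i) = lam ^ (m i - j) * lam ^ j := by
        rw [← pow_add, Nat.sub_add_cancel hj]
      rw [h3] at h2
      have h4 : (sz S (m i - j) : ℝ) * lam ^ j ≤ sz S (m i) := by
        have h5 : lam ^ (m i - j) * ((sz S (m i - j) : ℝ) * lam ^ j) ≤
            lam ^ (m i - j) * sz S (m i) := by linarith
        exact le_of_mul_le_mul_left h5 (by positivity)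
      calc lam ^ j * (cnt S σ (m i) (m i - j) x : ℝ) ≤ lam ^ j * sz S (m i - j) := by
            apply mul_le_mul_of_nonneg_left _ (by positivity)
            exact_mod_cast h1
        _ ≤ sz S (m i) := by linarith
    · push Not at h
      rw [hW' _ x h]
      exact zero_le_one
  -- ultralimit
  have hlim : ∀ x, ∃ l ∈ Set.Icc (0 : ℝ) 1,
      Tendsto (fun i => W (m i) x) (hyperfilter ℕ : Ultrafilter ℕ) (𝓝 l) := by
    intro x
    have hc : IsCompact (Set.Icc (0 : ℝ) 1) := isCompact_Icc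
    have h1 : (((hyperfilter ℕ).map (fun i => W (m i) x) : Ultrafilter ℝ) : Filter ℝ) ≤
        𝓟 (Set.Icc 0 1) := by
      rw [le_principal_iff, Ultrafilter.coe_map, Filter.mem_map]
      exact Filter.univ_mem' (fun i => ⟨hW0 _ _, hW1 _ _⟩)
    have := hc.ultrafilter_le_nhds _ h1
    obtain ⟨l, hl, hle⟩ := this
    exact ⟨l, hl, hle⟩
  choose w hwI hw using hlim
  let A : G → Set G := fun s => {y | (∃ n, y ∈ sph (S : Set G) (n + 1)) ∧ σ y = s}
  refine ⟨w, A, fun x => (hwI x).1, fun x => (hwI x).2, ?_, ?_, ?_⟩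
  · have h1 : ∀ i, W (m i) 1 = 1 := by
      intro i
      rw [hW _ 0 1 (Nat.zero_le _) (sph_zero.mpr rfl)]
      have h0 : (sz S (m i) : ℝ) ≠ 0 := (hszpos i).ne'
      rw [pow_zero, one_mul, Nat.sub_zero, cnt_one hσ (m i), div_self h0]
    have h2 := hw 1
    simp only [h1] at h2
    exact (tendsto_nhds_unique h2 tendsto_const_nhds)
  · intro s _ t _ hst
    rw [Set.disjoint_left]
    intro y hy hy'
    exact hst (hy.2.symm.trans hy'.2)
  · intro x
    have hne : (hyperfilter ℕ : Filter ℕ).NeBot := inferInstance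
    have hT1 : Tendsto (fun i => lam * W (m i) x) (hyperfilter ℕ : Ultrafilter ℕ)
        (𝓝 (lam * w x)) := (hw x).const_mul lam
    have hT2 : Tendsto (fun i => ∑ s ∈ S, (A s).indicator (W (m i)) (s * x))
        (hyperfilter ℕ : Ultrafilter ℕ) (𝓝 (∑ s ∈ S, (A s).indicator w (s * x))) := by
      apply tendsto_finsetSum
      intro s _
      by_cases h : s * x ∈ A s
      · simp only [Set.indicator_of_mem h]
        exact hw _
      · simp only [Set.indicator_of_notMem h]
        exact tendsto_const_nhds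
    refine le_of_tendsto_of_tendsto hT1 hT2 ?_
    by_cases h : ∃ j, x ∈ sph (S : Set G) j
    · obtain ⟨j, hx⟩ := h
      have hev : ∀ᶠ i in (hyperfilter ℕ : Filter ℕ), j + 1 ≤ i := by
        apply Nat.hyperfilter_le_atTop
        exact eventually_ge_atTop (j + 1)
      filter_upwards [hev] with i hi
      have hmi : j + 1 ≤ m i := hi.trans (hmN i)
      obtain ⟨k, hk⟩ : ∃ k, m i = j + 1 + k := ⟨m i - (j + 1), by omega⟩
      rw [hW _ j x (by omega) hx]
      have h1 := cnt_succ_le hσ j k x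
      have h2 : ∀ s ∈ S, lam ^ (j + 1) * (({y | y ∈ sph (S : Set G) (j + 1) ∧ σ y = s} : Set G).indicator
        (fun y => cnt S σ (j + 1 + k) k y) (s * x) : ℕ) / sz S (m i)
          ≤ (A s).indicator (W (m i)) (s * x) := by
        intro s _
        by_cases hs : s * x ∈ ({y | y ∈ sph (S : Set G) (j + 1) ∧ σ y = s} : Set G)
        · have hs' : s * x ∈ A s := ⟨⟨j, hs.1⟩, hs.2⟩
          rw [Set.indicator_of_mem hs, Set.indicator_of_mem hs', hW _ (j + 1) _ hmi hs.1]
          have : m i - (j + 1) = k := by omega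
          rw [this, hk]
        · rw [Set.indicator_of_notMem hs]
          simp only [Nat.cast_zero, mul_zero, zero_div]
          exact Set.indicator_nonneg (fun y _ => hW0 _ y) _
      have h3 : m i - j = k + 1 := by omega
      calc lam * (lam ^ j * (cnt S σ (m i) (m i - j) x : ℝ) / sz S (m i))
          = lam ^ (j + 1) * (cnt S σ (j + 1 + k) (k + 1) x : ℝ) / sz S (m i) := by
            rw [h3, hk, pow_succ]; ring
        _ ≤ lam ^ (j + 1) * ((∑ s ∈ S,
            ({y | y ∈ sph (S : Set G) (j + 1) ∧ σ y = s} : Set G).indicator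
              (fun y => cnt S σ (j + 1 + k) k y) (s * x) : ℕ) : ℝ) / sz S (m i) := by
            apply div_le_div_of_nonneg_right _ (hszpos i).le
            apply mul_le_mul_of_nonneg_left _ (by positivity)
            exact_mod_cast h1
        _ = ∑ s ∈ S, lam ^ (j + 1) * (({y | y ∈ sph (S : Set G) (j + 1) ∧ σ y = s} :
              Set G).indicator (fun y => cnt S σ (j + 1 + k) k y) (s * x) : ℕ) / sz S (m i) := by
            push_cast
            rw [Finset.mul_sum, Finset.sum_div]
        _ ≤ _ := Finset.sum_le_sum h2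
    · push Not at h
      refine Filter.Eventually.of_forall (fun i => ?_)
      simp only
      rw [hW' _ x (fun j _ => h j), mul_zero]
      apply Finset.sum_nonneg
      intro s _
      exact Set.indicator_nonneg (fun y _ => hW0 _ y) _

end Weight

end Pool.Agent.MP_587aff_al
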